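import Mathlib

set_option autoImplicit false

open Metric Set Filter Topology

namespace Pool.Agent.Q171.Lem

variable {V : Type*} [NormedAddCommGroup V] [NormedSpace ℂ V]

/-- the set of values over which the Lempert function is the infimum -/
def LSet (D : Set V) (z w : V) : Set ℝ :=
  {r | ∃ (f : ℂ → V) (l : ℂ), DifferentiableOn ℂ f (ball 0 1) ∧ MapsTo f (ball 0 1) D ∧
    ‖l‖ < 1 ∧ f 0 = z ∧ f l = w ∧ r = Real.artanh ‖l‖}

theorem tanh_lt {x y : ℝ} (h : x < y) : Real.tanh x < Real.tanh y := by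
  rw [← Real.artanh_lt_artanh_iff ⟨Real.neg_one_lt_tanh _, Real.tanh_lt_one _⟩
    ⟨Real.neg_one_lt_tanh _, Real.tanh_lt_one _⟩, Real.artanh_tanh, Real.artanh_tanh]
  exact h

theorem LSet_nonneg {D : Set V} {z w : V} {r : ℝ} (h : r ∈ LSet D z w) : 0 ≤ r := by
  obtain ⟨f, l, _, _, _, _, _, rfl⟩ := h
  exact Real.artanh_nonneg (norm_nonneg _)

theorem LSet_bdd (D : Set V) (z w : V) : BddBelow (LSet D z w) :=
  ⟨0, fun _ h => LSet_nonneg h⟩

/-- compactness of uniformly bounded discs -/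
theorem compactness [FiniteDimensional ℂ V] {M : ℝ} (f : ℕ → ℂ → V)
    (hf : ∀ k, DifferentiableOn ℂ (f k) (ball 0 1))
    (hM : ∀ k, ∀ z ∈ ball (0 : ℂ) 1, ‖f k z‖ ≤ M) :
    ∃ (s : ℕ → ℕ) (g : ℂ → V), StrictMono s ∧ DifferentiableOn ℂ g (ball 0 1) ∧
      ∀ (x : ℕ → ℂ) (y : ℂ), ‖y‖ < 1 → Tendsto x atTop (𝓝 y) →
        Tendsto (fun k => f (s k) (x k)) atTop (𝓝 (g y)) := by
  have : CompleteSpace V := FiniteDimensional.complete ℂ V
  have : ProperSpace V := FiniteDimensional.proper ℂ V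
  have hM0 : 0 ≤ M := le_trans (norm_nonneg _) (hM 0 0 (by simp))
  set a : ℕ → ℕ → V := fun k j => ((j.factorial : ℂ))⁻¹ • iteratedDeriv j (f k) 0 with ha
  have hbd : ∀ k j, ‖a k j‖ ≤ M := by
    intro k j
    have h1 : ∀ r : ℝ, 0 < r → r < 1 → ‖a k j‖ * r ^ j ≤ M := by
      intro r hr0 hr1
      have hd : DiffContOnCl ℂ (f k) (ball 0 r) := by
        apply DifferentiableOn.diffContOnCl
        rw [closure_ball _ hr0.ne']
        exact (hf k).mono (closedBall_subset_ball hr1)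
      have := Complex.norm_iteratedDeriv_le_of_forall_mem_sphere_norm_le (C := M) j hr0 hd
        (fun z hz => hM k z (by
          rw [mem_sphere_zero_iff_norm] at hz
          rw [mem_ball_zero_iff, hz]; exact hr1))
      rw [ha]
      simp only [norm_smul, norm_inv, Complex.norm_natCast]
      have hfac : (0 : ℝ) < j.factorial := by exact_mod_cast Nat.factorial_pos j
      rw [le_div_iff₀ (pow_pos hr0 j)] at this
      rw [inv_mul_eq_div, div_mul_eq_mul_div, div_le_iff₀ hfac]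
      linarith
    have h2 : Tendsto (fun r : ℝ => ‖a k j‖ * r ^ j) (𝓝[<] 1) (𝓝 (‖a k j‖ * 1 ^ j)) := by
      apply Tendsto.mono_left _ nhdsWithin_le_nhds
      exact (Continuous.tendsto (by fun_prop) 1)
    rw [one_pow, mul_one] at h2
    refine le_of_tendsto h2 ?_
    have : Ioo (0 : ℝ) 1 ∈ 𝓝[<] (1 : ℝ) := Ioo_mem_nhdsLT one_pos
    filter_upwards [this] with r hr using h1 r hr.1 hr.2
  have hK : IsCompact (Set.pi univ (fun _ : ℕ => closedBall (0 : V) M)) :=
    isCompact_univ_pi (fun _ => isCompact_closedBall 0 M)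
  obtain ⟨b, hb, s, hs, hlim⟩ := hK.tendsto_subseq (x := a) (fun k => by
    intro j _
    rw [mem_closedBall_zero_iff]
    exact hbd k j)
  have hbM : ∀ j, ‖b j‖ ≤ M := fun j => by
    have := hb j (mem_univ j)
    rwa [mem_closedBall_zero_iff] at this
  rw [tendsto_pi_nhds] at hlim
  refine ⟨s, fun z => ∑' j : ℕ, z ^ j • b j, hs, ?_, ?_⟩
  · intro z hz
    rw [mem_ball_zero_iff] at hz
    obtain ⟨r, hr1, hr2⟩ := exists_between hz
    have hr0 : 0 ≤ r := (norm_nonneg z).trans hr1.le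
    have : DifferentiableOn ℂ (fun z : ℂ => ∑' j : ℕ, z ^ j • b j) (ball 0 r) := by
      refine Complex.differentiableOn_tsum_of_summable_norm (u := fun j => r ^ j * M)
        ((summable_geometric_of_lt_one hr0 hr2).mul_right M) ?_ isOpen_ball ?_
      · intro j; fun_prop
      · intro j w hw
        rw [mem_ball_zero_iff] at hw
        rw [norm_smul, norm_pow]
        gcongr
        exact hbM j
    exact (this.differentiableAt (isOpen_ball.mem_nhds (by simpa using hr1))).differentiableWithinAt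
  · intro x y hy hx
    obtain ⟨r, hr1, hr2⟩ := exists_between hy
    have hr0 : 0 ≤ r := (norm_nonneg y).trans hr1.le
    have hev : ∀ᶠ k in atTop, ‖x k‖ < r := (hx.norm).eventually_lt_const hr1
    have h1 : Tendsto (fun k => ∑' j : ℕ, (x k) ^ j • a (s k) j) atTop
        (𝓝 (∑' j : ℕ, y ^ j • b j)) := by
      refine tendsto_tsum_of_dominated_convergence (bound := fun j => r ^ j * M)
        ((summable_geometric_of_lt_one hr0 hr2).mul_right M) ?_ ?_
      · intro j
        exact (hx.pow j).smul (hlim j)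
      · filter_upwards [hev] with k hk j
        rw [norm_smul, norm_pow]
        gcongr
        exact hbd _ _
    refine h1.congr' ?_
    filter_upwards [hev] with k hk
    have := Complex.taylorSeries_eq_on_ball (hf (s k)) (z := x k)
      (by rw [mem_ball_zero_iff]; exact hk.trans hr2)
    rw [← this]
    congr 1
    funext j
    rw [ha]
    simp only [sub_zero]
    rw [smul_comm]

/-- perturbation of a disc -/
theorem perturb {D : Set V} (hD : IsOpen D) {f : ℂ → V} {l : ℂ}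
    (hf : DifferentiableOn ℂ f (ball 0 1)) (hfD : MapsTo f (ball 0 1) D) (hl0 : l ≠ 0)
    {ρ : ℝ} (hl : ‖l‖ < ρ) (hρ : ρ < 1) :
    ∀ᶠ p : V × V in 𝓝 (f 0, f l), Real.artanh ρ ∈ LSet D p.1 p.2 := by
  have hlp : 0 < ‖l‖ := norm_pos_iff.mpr hl0
  have hρ0 : 0 < ρ := hlp.trans hl
  set r : ℝ := ‖l‖ / ρ with hr
  have hr0 : 0 < r := div_pos hlp hρ0
  have hr1 : r < 1 := (div_lt_one hρ0).mpr hl
  have hrc : (r : ℂ) ≠ 0 := by exact_mod_cast hr0.ne'
  set l' : ℂ := l / r with hl'
  have hl'n : ‖l'‖ = ρ := by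
    rw [hl', norm_div, Complex.norm_real, Real.norm_of_nonneg hr0.le, hr]
    field_simp
  have hl'0 : l' ≠ 0 := div_ne_zero hl0 hrc
  have hK : IsCompact (f '' closedBall 0 r) :=
    (isCompact_closedBall 0 r).image_of_continuousOn
      ((hf.mono (closedBall_subset_ball hr1)).continuousOn)
  have hKD : f '' closedBall 0 r ⊆ D := by
    rintro _ ⟨ζ, hζ, rfl⟩
    exact hfD (closedBall_subset_ball hr1 hζ)
  obtain ⟨δ, hδ, hδD⟩ := hK.exists_thickening_subset_open hD hKD
  set η : ℝ := δ / (1 + 2 / ρ) with hη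
  have hη0 : 0 < η := by positivity
  filter_upwards [Metric.ball_mem_nhds (f 0, f l) hη0] with p hp
  rw [mem_ball, Prod.dist_eq, max_lt_iff, dist_eq_norm, dist_eq_norm] at hp
  obtain ⟨hp1, hp2⟩ := hp
  refine ⟨fun ζ => f (r * ζ) + (p.1 - f 0) + (ζ / l') • ((p.2 - f l) - (p.1 - f 0)), l',
    ?_, ?_, ?_, ?_, ?_, ?_⟩
  · have h1 : DifferentiableOn ℂ (fun ζ : ℂ => f (r * ζ)) (ball 0 1) := by
      apply hf.comp (by fun_prop)
      intro ζ hζ
      rw [mem_ball_zero_iff] at hζ ⊢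
      rw [norm_mul, Complex.norm_real, Real.norm_of_nonneg hr0.le]
      nlinarith [norm_nonneg ζ]
    have h2 : DifferentiableOn ℂ
        (fun ζ : ℂ => (ζ / l') • ((p.2 - f l) - (p.1 - f 0))) (ball 0 1) := by
      fun_prop
    exact (h1.add_const _).add h2
  · intro ζ hζ
    rw [mem_ball_zero_iff] at hζ
    apply hδD
    rw [mem_thickening_iff]
    refine ⟨f (r * ζ), ⟨r * ζ, ?_, rfl⟩, ?_⟩
    · rw [mem_closedBall_zero_iff, norm_mul, Complex.norm_real, Real.norm_of_nonneg hr0.le]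
      nlinarith
    · rw [dist_eq_norm]
      have e : f (r * ζ) + (p.1 - f 0) + (ζ / l') • ((p.2 - f l) - (p.1 - f 0)) - f (r * ζ) =
          (p.1 - f 0) + (ζ / l') • ((p.2 - f l) - (p.1 - f 0)) := by abel
      rw [e]
      calc ‖(p.1 - f 0) + (ζ / l') • ((p.2 - f l) - (p.1 - f 0))‖
          ≤ ‖p.1 - f 0‖ + ‖(ζ / l') • ((p.2 - f l) - (p.1 - f 0))‖ := norm_add_le _ _
        _ ≤ ‖p.1 - f 0‖ + (1 / ρ) * (‖p.2 - f l‖ + ‖p.1 - f 0‖) := by
            rw [norm_smul, norm_div, hl'n]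
            gcongr
            exact norm_sub_le _ _
        _ < η + (1 / ρ) * (η + η) := by gcongr
        _ = δ := by rw [hη]; field_simp; ring
  · rw [hl'n]; exact hρ
  · simp
  · have : (r : ℂ) * l' = l := by rw [hl']; field_simp
    simp only [this, div_self hl'0, one_smul]
    abel
  · rw [hl'n]

theorem const_mem {D : Set V} {z : V} (hz : z ∈ D) : (0 : ℝ) ∈ LSet D z z :=
  ⟨fun _ => z, 0, differentiableOn_const _, fun _ _ => hz, by simp, rfl, rfl, by simp⟩

/-- upper semicontinuity -/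
theorem usc {D : Set V} (hD : IsOpen D) {z w : V} {c : ℝ} (h : ∃ r ∈ LSet D z w, r < c) :
    ∀ᶠ p : V × V in 𝓝 (z, w), ∃ r ∈ LSet D p.1 p.2, r < c := by
  obtain ⟨r, ⟨f, l, hf, hfD, hl, hz, hw, rfl⟩, hrc⟩ := h
  have hc : 0 < c := (Real.artanh_nonneg (norm_nonneg _)).trans_lt hrc
  by_cases hl0 : l = 0
  · subst hl0
    have hzw : z = w := hz.symm.trans hw
    subst hzw
    have hzD : z ∈ D := hz ▸ hfD (by simp)
    have h1 : Real.tanh (c / 2) < 1 := Real.tanh_lt_one _
    have h0 : 0 < Real.tanh (c / 2) := by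
      rw [← Real.tanh_zero]; exact tanh_lt (by positivity)
    have := perturb hD (f := fun _ => z) (l := ((Real.tanh (c / 2) / 2 : ℝ) : ℂ))
      (differentiableOn_const _) (fun _ _ => hzD) (by
        exact_mod_cast (half_pos h0).ne') (ρ := Real.tanh (c / 2)) (by
        rw [Complex.norm_real, Real.norm_of_nonneg (by positivity)]; linarith) h1
    filter_upwards [this] with p hp
    refine ⟨_, hp, ?_⟩
    rw [Real.artanh_tanh]; linarith
  · obtain ⟨c', hc1, hc2⟩ := exists_between hrc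
    have hl1 : ‖l‖ < Real.tanh c' := by
      have hm : ‖l‖ ∈ Ioo (-1 : ℝ) 1 := ⟨by linarith [norm_nonneg l], hl⟩
      rw [← Real.tanh_artanh hm]
      exact tanh_lt hc1
    have := perturb hD hf hfD hl0 hl1 (Real.tanh_lt_one _)
    rw [hz, hw] at this
    filter_upwards [this] with p hp
    refine ⟨_, hp, ?_⟩
    rw [Real.artanh_tanh]; exact hc2

end Pool.Agent.Q171.Lem
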