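import Mathlib

set_option autoImplicit false

open Metric Set Filter Topology

namespace Pool.Agent.Q171.Lem

/-- Cauchy estimate by the mean of the norm -/
theorem cauchy_mean {G : ℂ → ℂ} {R : ℝ} (hG : DiffContOnCl ℂ G (ball 0 R)) {α : ℂ}
    (hα : ‖α‖ < R) :
    ‖G α‖ ≤ R / (R - ‖α‖) * ((1 / (2 * Real.pi)) *
      ∫ θ in (0 : ℝ)..(2 * Real.pi), ‖G (R * Complex.exp (θ * Complex.I))‖) := by
  have hR : 0 < R := (norm_nonneg _).trans_lt hα
  have hpi := Real.pi_pos
  have hsub : 0 < R - ‖α‖ := by linarith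
  have hcl : closure (ball (0 : ℂ) R) = closedBall 0 R := closure_ball _ hR.ne'
  have hc : ContinuousOn G (closedBall 0 R) := hcl ▸ hG.continuousOn
  have h1 := hG.circleIntegral_sub_inv_smul (w := α) (by simpa using hα)
  have hcm : ∀ θ : ℝ, circleMap 0 R θ = R * Complex.exp (θ * Complex.I) := fun θ => by
    simp [circleMap]
  have hcont : Continuous (fun θ : ℝ => ‖G (R * Complex.exp (θ * Complex.I))‖) := by
    apply Continuous.norm
    refine hc.comp_continuous (by fun_prop) fun θ => ?_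
    rw [mem_closedBall_zero_iff, norm_mul, Complex.norm_exp_ofReal_mul_I, mul_one,
      Complex.norm_real, Real.norm_of_nonneg hR.le]
  have h2 : ‖∮ z in C(0, R), (z - α)⁻¹ • G z‖ ≤
      ∫ θ in (0 : ℝ)..(2 * Real.pi), R / (R - ‖α‖) * ‖G (R * Complex.exp (θ * Complex.I))‖ := by
    unfold circleIntegral
    apply intervalIntegral.norm_integral_le_of_norm_le (by positivity)
    · filter_upwards with θ _
      rw [deriv_circleMap, hcm, norm_smul, norm_smul, norm_mul, Complex.norm_I, mul_one, norm_mul,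
        Complex.norm_exp_ofReal_mul_I, mul_one, Complex.norm_real, Real.norm_of_nonneg hR.le,
        norm_inv, ← mul_assoc, div_eq_mul_inv]
      gcongr
      have h3 := norm_sub_norm_le ((R : ℂ) * Complex.exp (θ * Complex.I)) α
      rw [norm_mul, Complex.norm_exp_ofReal_mul_I, mul_one,
        Complex.norm_real, Real.norm_of_nonneg hR.le] at h3
      exact h3
    · exact (hcont.const_mul _).intervalIntegrable _ _
  rw [h1, intervalIntegral.integral_const_mul, norm_smul] at h2
  have h4 : ‖(2 * Real.pi * Complex.I : ℂ)‖ = 2 * Real.pi := by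
    simp [abs_of_pos hpi]
  rw [h4] at h2
  calc ‖G α‖ = (1 / (2 * Real.pi)) * (2 * Real.pi * ‖G α‖) := by field_simp
    _ ≤ (1 / (2 * Real.pi)) * (R / (R - ‖α‖) *
        ∫ θ in (0 : ℝ)..(2 * Real.pi), ‖G (R * Complex.exp (θ * Complex.I))‖) := by gcongr
    _ = _ := by ring

/-- at the centre -/
theorem cauchy_mean_zero {G : ℂ → ℂ} {R : ℝ} (hR : 0 < R) (hG : DiffContOnCl ℂ G (ball 0 R)) :
    ‖G 0‖ ≤ (1 / (2 * Real.pi)) *
      ∫ θ in (0 : ℝ)..(2 * Real.pi), ‖G (R * Complex.exp (θ * Complex.I))‖ := by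
  have := cauchy_mean hG (α := 0) (by simpa using hR)
  simpa [hR.ne'] using this

end Pool.Agent.Q171.Lem
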