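import Pool.Agent.Q171.Lem.Basic

set_option autoImplicit false

open Metric Set Filter Topology

namespace Pool.Agent.Q171.Lem

theorem cayley_re {u : ℂ} (hu : ‖u‖ < 1) : 0 < ((1 + u) / (1 - u)).re := by
  have h1 : 1 - u ≠ 0 := by
    intro h
    have : u = 1 := by linear_combination -h
    rw [this] at hu; simp at hu
  have h2 : 0 < Complex.normSq (1 - u) := Complex.normSq_pos.mpr h1
  have h3 : u.re ^ 2 + u.im ^ 2 < 1 := by
    have := Complex.sq_norm u
    rw [Complex.normSq_apply] at this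
    nlinarith [norm_nonneg u]
  rw [Complex.div_re]
  simp only [Complex.add_re, Complex.one_re, Complex.sub_re, Complex.add_im, Complex.one_im,
    Complex.sub_im, zero_add, zero_sub]
  rw [← add_div]
  apply div_pos _ h2
  nlinarith

theorem mob_norm {a : ℝ} (ha0 : 0 ≤ a) (ha1 : a < 1) {ζ : ℂ} (hζ : ‖ζ‖ < 1) :
    1 - (a : ℂ) * ζ ≠ 0 ∧ ‖(ζ - a) / (1 - a * ζ)‖ < 1 := by
  have h0 : 1 - (a : ℂ) * ζ ≠ 0 := by
    intro h
    have h1 : (a : ℂ) * ζ = 1 := by linear_combination -h
    have h2 : ‖(a : ℂ) * ζ‖ = 1 := by rw [h1]; simp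
    rw [norm_mul, Complex.norm_real, Real.norm_of_nonneg ha0] at h2
    nlinarith [norm_nonneg ζ]
  refine ⟨h0, ?_⟩
  rw [norm_div, div_lt_one (norm_pos_iff.mpr h0)]
  apply lt_of_pow_lt_pow_left₀ 2 (norm_nonneg _)
  rw [Complex.sq_norm, Complex.sq_norm, Complex.normSq_apply, Complex.normSq_apply]
  have h3 : ζ.re ^ 2 + ζ.im ^ 2 < 1 := by
    have := Complex.sq_norm ζ
    rw [Complex.normSq_apply] at this
    nlinarith [norm_nonneg ζ]
  simp
  nlinarith [mul_pos (sub_pos.mpr ha1) (sub_pos.mpr h3)]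

theorem log_cayley {x : ℝ} (h0 : -1 < x) (h1 : x < 1) :
    Complex.log ((1 + (x : ℂ)) / (1 - x)) = ((2 * Real.artanh x : ℝ) : ℂ) := by
  have : (1 + (x : ℂ)) / (1 - x) = (((1 + x) / (1 - x) : ℝ) : ℂ) := by push_cast; rfl
  rw [this, ← Complex.ofReal_log (div_nonneg (by linarith) (by linarith)),
    Real.artanh_eq_half_log ⟨h0.le, h1.le⟩]
  congr 1
  ring

theorem exists_thin {ε : ℝ} (hε : 0 < ε) : ∃ (T : ℂ → ℂ) (l : ℂ),
    DifferentiableOn ℂ T (ball 0 1) ∧ ‖l‖ < 1 ∧ T 0 = 0 ∧ T l = 1 ∧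
    ∀ ζ ∈ ball (0 : ℂ) 1, ∃ t ∈ Icc (0 : ℝ) 1, ‖T ζ - t‖ < ε := by
  set c : ℝ := ε / 4 with hc
  have hc0 : 0 < c := by positivity
  set x : ℝ := Real.tanh (1 / (4 * c)) with hx
  set r : ℝ := Real.tanh ((1 + ε) / (4 * c)) with hr
  have hx0 : 0 < x := by
    rw [hx, ← Real.tanh_zero]; exact tanh_lt (by positivity)
  have hxr : x < r := by
    apply tanh_lt
    gcongr
    linarith
  have hr1 : r < 1 := Real.tanh_lt_one _
  have hr0 : 0 < r := hx0.trans hxr
  set a : ℝ := x / r with ha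
  have ha0 : 0 < a := div_pos hx0 hr0
  have ha1 : a < 1 := (div_lt_one hr0).mpr hxr
  have hra : r * a = x := by rw [ha]; field_simp
  have har : Real.artanh r = (1 + ε) / (4 * c) := by rw [hr, Real.artanh_tanh]
  have hax : Real.artanh x = 1 / (4 * c) := by rw [hx, Real.artanh_tanh]
  set m : ℂ → ℂ := fun ζ => (ζ - a) / (1 - a * ζ) with hm
  have hu : ∀ ζ ∈ ball (0 : ℂ) 1, ‖(r : ℂ) * m ζ‖ < r := by
    intro ζ hζ
    rw [mem_ball_zero_iff] at hζ
    rw [norm_mul, Complex.norm_real, Real.norm_of_nonneg hr0.le]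
    nlinarith [(mob_norm ha0.le ha1 hζ).2]
  have hne : ∀ ζ ∈ ball (0 : ℂ) 1, 1 - (r : ℂ) * m ζ ≠ 0 := by
    intro ζ hζ h
    have h1 : (r : ℂ) * m ζ = 1 := by linear_combination -h
    have := hu ζ hζ
    rw [h1] at this; simp at this; linarith
  refine ⟨fun ζ => 1 / 2 + c * Complex.log ((1 + r * m ζ) / (1 - r * m ζ)),
    ((2 * a / (1 + a ^ 2) : ℝ) : ℂ), ?_, ?_, ?_, ?_, ?_⟩
  · have hmd : DifferentiableOn ℂ m (ball 0 1) := by
      intro ζ hζ
      rw [mem_ball_zero_iff] at hζ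
      exact (DifferentiableAt.div (c := fun ζ : ℂ => ζ - a) (d := fun ζ : ℂ => 1 - a * ζ)
        (by fun_prop) (by fun_prop) (mob_norm ha0.le ha1 hζ).1).differentiableWithinAt
    apply DifferentiableOn.const_add
    apply DifferentiableOn.const_mul
    apply DifferentiableOn.clog
    · apply DifferentiableOn.div _ _ hne
      · exact (hmd.const_mul _).const_add _
      · exact (hmd.const_mul _).const_sub _
    · intro ζ hζ
      rw [Complex.mem_slitPlane_iff]
      left
      exact cayley_re ((hu ζ hζ).trans hr1)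
  · rw [Complex.norm_real, Real.norm_of_nonneg (by positivity), div_lt_one (by positivity)]
    nlinarith [mul_self_pos.mpr (sub_ne_zero.mpr ha1.ne)]
  · have h1 : m 0 = -(a : ℂ) := by simp [hm]
    have h2 : (r : ℂ) * m 0 = ((-x : ℝ) : ℂ) := by
      rw [h1, ← hra]; push_cast; ring
    simp only [h2]
    rw [log_cayley (by linarith) (by linarith)]
    have h4 : Real.artanh (-x) = -(1 / (4 * c)) := by
      rw [hx, ← Real.tanh_neg, Real.artanh_tanh]
    rw [h4]
    have h5 : (1 / 2 : ℝ) + c * (2 * -(1 / (4 * c))) = 0 := by field_simp; norm_num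
    have h6 := congrArg (fun t : ℝ => (t : ℂ)) h5
    push_cast at h6 ⊢
    exact h6
  · have h1 : m ((2 * a / (1 + a ^ 2) : ℝ) : ℂ) = a := by
      have h2 : (2 * a / (1 + a ^ 2) - a) / (1 - a * (2 * a / (1 + a ^ 2))) = a := by
        have : (1 : ℝ) - a * (2 * a / (1 + a ^ 2)) ≠ 0 := by
          have : (1 : ℝ) - a * (2 * a / (1 + a ^ 2)) = (1 - a ^ 2) / (1 + a ^ 2) := by
            field_simp; ring
          rw [this]
          exact (div_pos (by nlinarith) (by positivity)).ne'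
        rw [div_eq_iff this]
        field_simp
        ring
      simp only [hm]
      exact_mod_cast h2
    have h2 : (r : ℂ) * m ((2 * a / (1 + a ^ 2) : ℝ) : ℂ) = ((x : ℝ) : ℂ) := by
      rw [h1, ← hra]; push_cast; ring
    simp only [h2]
    rw [log_cayley (by linarith) (by linarith), hax]
    have h5 : (1 / 2 : ℝ) + c * (2 * (1 / (4 * c))) = 1 := by field_simp; norm_num
    have h6 := congrArg (fun t : ℝ => (t : ℂ)) h5
    push_cast at h6 ⊢
    exact h6
  · intro ζ hζ
    set u : ℂ := r * m ζ with hud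
    have hu1 : ‖u‖ < r := hu ζ hζ
    set X : ℂ := (1 + u) / (1 - u) with hX
    have hXre : 0 < X.re := cayley_re (hu1.trans hr1)
    have harg : |X.arg| < Real.pi / 2 := by
      rw [Complex.abs_arg_lt_pi_div_two_iff]; left; exact hXre
    have hn1 : ‖1 + u‖ ≤ 1 + r := (norm_add_le _ _).trans (by simp; linarith)
    have hn2 : 1 - r ≤ ‖1 + u‖ := by
      have := norm_sub_norm_le (1 : ℂ) (-u)
      simp at this; linarith
    have hn3 : ‖1 - u‖ ≤ 1 + r := (norm_sub_le _ _).trans (by simp; linarith)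
    have hn4 : 1 - r ≤ ‖1 - u‖ := by
      have := norm_sub_norm_le (1 : ℂ) u
      simp at this; linarith
    have hXn : ‖X‖ = ‖1 + u‖ / ‖1 - u‖ := norm_div _ _
    have hb1 : ‖X‖ ≤ (1 + r) / (1 - r) := by
      rw [hXn]; gcongr
    have hb2 : (1 - r) / (1 + r) ≤ ‖X‖ := by
      rw [hXn]
      have : 0 < ‖1 - u‖ := lt_of_lt_of_le (by linarith) hn4
      gcongr
    have hXpos : 0 < ‖X‖ := lt_of_lt_of_le (div_pos (by linarith) (by linarith)) hb2
    have hL : Real.log ((1 + r) / (1 - r)) = (1 + ε) / (2 * c) := by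
      have := Real.artanh_eq_half_log (x := r) ⟨by linarith, hr1.le⟩
      rw [har] at this
      field_simp at this ⊢
      linarith
    have hl1 : Real.log ‖X‖ ≤ (1 + ε) / (2 * c) := by
      rw [← hL]; exact Real.log_le_log hXpos hb1
    have hl2 : -((1 + ε) / (2 * c)) ≤ Real.log ‖X‖ := by
      rw [← hL, ← Real.log_inv, inv_div]
      exact Real.log_le_log (div_pos (by linarith) (by linarith)) hb2
    have hre : (1 / 2 + (c : ℂ) * Complex.log X).re = 1 / 2 + c * Real.log ‖X‖ := by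
      simp [Complex.log_re]
    have him : (1 / 2 + (c : ℂ) * Complex.log X).im = c * X.arg := by
      simp [Complex.log_im]
    have hc1 : c * ((1 + ε) / (2 * c)) = 1 / 2 + ε / 2 := by field_simp
    have hR1 : 1 / 2 + c * Real.log ‖X‖ ≤ 1 + ε / 2 := by
      nlinarith [mul_le_mul_of_nonneg_left hl1 hc0.le]
    have hR2 : -(ε / 2) ≤ 1 / 2 + c * Real.log ‖X‖ := by
      nlinarith [mul_le_mul_of_nonneg_left hl2 hc0.le]
    have hI : |c * X.arg| < ε / 2 := by
      rw [abs_mul, abs_of_pos hc0]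
      have : c * |X.arg| < c * (Real.pi / 2) := by gcongr
      have hpi := Real.pi_lt_four
      nlinarith
    refine ⟨max 0 (min 1 (1 / 2 + c * Real.log ‖X‖)), ⟨le_max_left _ _,
      max_le zero_le_one (min_le_left _ _)⟩, ?_⟩
    refine (Complex.norm_le_abs_re_add_abs_im _).trans_lt ?_
    rw [Complex.sub_re, Complex.sub_im, hre, him, Complex.ofReal_re, Complex.ofReal_im, sub_zero]
    have : |1 / 2 + c * Real.log ‖X‖ - max 0 (min 1 (1 / 2 + c * Real.log ‖X‖))| ≤ ε / 2 := by
      rw [abs_le]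
      constructor
      · rcases le_total 0 (min 1 (1 / 2 + c * Real.log ‖X‖)) with h | h
        · rw [max_eq_right h]
          linarith [min_le_right 1 (1 / 2 + c * Real.log ‖X‖)]
        · rw [max_eq_left h]; linarith
      · rcases le_total 1 (1 / 2 + c * Real.log ‖X‖) with h | h
        · rw [min_eq_left h]
          linarith [le_max_right 0 (1 : ℝ)]
        · rw [min_eq_right h]
          linarith [le_max_right 0 (1 / 2 + c * Real.log ‖X‖)]
    linarith

open unitInterval in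
/-- in a connected open set any two points lie on a common analytic disc -/
theorem LSet_nonempty {V : Type*} [NormedAddCommGroup V] [NormedSpace ℂ V]
    {D : Set V} (hD : IsOpen D) (hc : IsConnected D) {z w : V} (hz : z ∈ D) (hw : w ∈ D) :
    (LSet D z w).Nonempty := by
  let _ : NormedSpace ℝ V := NormedSpace.restrictScalars ℝ ℂ V
  have : IsScalarTower ℝ ℂ V := by infer_instance
  obtain ⟨γ, hγ⟩ := (hD.isConnected_iff_isPathConnected.mp hc).joinedIn z hz w hw
  have hK : IsCompact (range γ) := isCompact_range γ.continuous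
  have hKD : range γ ⊆ D := by rintro _ ⟨t, rfl⟩; exact hγ t
  obtain ⟨δ, hδ, hδD⟩ := hK.exists_thickening_subset_open hD hKD
  have hB := bernsteinApproximation_uniform γ.toContinuousMap
  rw [Metric.tendsto_nhds] at hB
  obtain ⟨n, hn1, hn0⟩ := ((hB δ hδ).and (eventually_ne_atTop 0)).exists
  set P : ℂ → V := fun τ => ∑ k : Fin (n + 1),
    ((n.choose k : ℂ) * τ ^ (k : ℕ) * (1 - τ) ^ (n - k)) • γ (bernstein.z k) with hP
  have hPt : ∀ t : I, P (t : ℝ) = bernsteinApproximation n γ.toContinuousMap t := by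
    intro t
    rw [bernsteinApproximation.apply]
    simp only [hP]
    refine Finset.sum_congr rfl fun k _ => ?_
    rw [bernstein_apply]
    have : ((n.choose k : ℂ) * ((t : ℝ) : ℂ) ^ (k : ℕ) * (1 - ((t : ℝ) : ℂ)) ^ (n - k)) =
      (((n.choose k : ℝ) * (t : ℝ) ^ (k : ℕ) * (1 - (t : ℝ)) ^ (n - k) : ℝ) : ℂ) := by
      push_cast; rfl
    rw [this]
    exact (RCLike.real_smul_eq_coe_smul (K := ℂ) _ _).symm
  have hPd : Differentiable ℂ P := by
    simp only [hP]
    fun_prop
  have hP0 : P 0 = z := by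
    have := hPt 0
    simpa using this
  have hP1 : P 1 = w := by
    have := hPt 1
    rw [bernsteinApproximation.apply_one hn0] at this
    simpa using this
  have hopen : IsOpen (P ⁻¹' D) := hD.preimage hPd.continuous
  have hcI : IsCompact ((fun t : ℝ => (t : ℂ)) '' Icc 0 1) :=
    isCompact_Icc.image Complex.continuous_ofReal
  have hsub : ((fun t : ℝ => (t : ℂ)) '' Icc 0 1) ⊆ P ⁻¹' D := by
    rintro _ ⟨t, ht, rfl⟩
    apply hδD
    rw [mem_thickening_iff]
    refine ⟨γ ⟨t, ht⟩, mem_range_self _, ?_⟩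
    have h1 := hPt ⟨t, ht⟩
    simp only at h1 ⊢
    rw [h1]
    exact (ContinuousMap.dist_apply_le_dist (f := bernsteinApproximation n γ.toContinuousMap)
      (g := γ.toContinuousMap) ⟨t, ht⟩).trans_lt hn1
  obtain ⟨ε, hε, hεD⟩ := hcI.exists_thickening_subset_open hopen hsub
  obtain ⟨T, l, hT, hl, hT0, hT1, hTn⟩ := exists_thin hε
  refine ⟨_, fun ζ => P (T ζ), l, hPd.comp_differentiableOn hT, ?_, hl, ?_, ?_, rfl⟩
  · intro ζ hζ
    apply hεD
    rw [mem_thickening_iff]
    obtain ⟨t, ht, htn⟩ := hTn ζ hζ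
    exact ⟨t, ⟨t, ht, rfl⟩, by rw [dist_eq_norm]; exact htn⟩
  · simp only [hT0, hP0]
  · simp only [hT1, hP1]

end Pool.Agent.Q171.Lem
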