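import Pool.Agent.Q171.Lem.Join

set_option autoImplicit false

open Metric Set Filter Topology

namespace Pool.Agent.Q171.Lem

variable {V : Type*} [NormedAddCommGroup V] [InnerProductSpace ℂ V]

/-- the spherical shell -/
def Shell (V : Type*) [NormedAddCommGroup V] : Set V := {x | 1 < ‖x‖ ∧ ‖x‖ < 2}

theorem isOpen_shell : IsOpen (Shell V) :=
  (isOpen_lt continuous_const continuous_norm).inter (isOpen_lt continuous_norm continuous_const)

theorem P_bound {A B : ℂ} {N : ℕ} {q : ℝ} (hA : ‖A‖ ≤ q) (hB : ‖B‖ ≤ q) (hq : q ^ N < 1 / 5)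
    (hq0 : 0 ≤ q) : 0 < ((1 - A ^ N) * (1 - B ^ N)).re := by
  have hAN : ‖A ^ N‖ ≤ q ^ N := by rw [norm_pow]; gcongr
  have hBN : ‖B ^ N‖ ≤ q ^ N := by rw [norm_pow]; gcongr
  have hqN : 0 ≤ q ^ N := pow_nonneg hq0 N
  have h1 : ‖A ^ N + B ^ N - A ^ N * B ^ N‖ < 1 := by
    calc ‖A ^ N + B ^ N - A ^ N * B ^ N‖ ≤ ‖A ^ N + B ^ N‖ + ‖A ^ N * B ^ N‖ := norm_sub_le _ _
      _ ≤ (‖A ^ N‖ + ‖B ^ N‖) + ‖A ^ N‖ * ‖B ^ N‖ := by
          gcongr
          · exact norm_add_le _ _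
          · exact (norm_mul _ _).le
      _ ≤ (q ^ N + q ^ N) + q ^ N * q ^ N := by gcongr
      _ < 1 := by nlinarith
  have e : (1 - A ^ N) * (1 - B ^ N) = 1 - (A ^ N + B ^ N - A ^ N * B ^ N) := by ring
  rw [e, Complex.sub_re, Complex.one_re]
  linarith [Complex.re_le_norm (A ^ N + B ^ N - A ^ N * B ^ N)]

/-- pushing a disc in the closed shell into the open shell -/
theorem push {φ : ℂ → V} (hφ : DifferentiableOn ℂ φ (ball 0 1))
    (hb : ∀ ζ ∈ ball (0 : ℂ) 1, 1 ≤ ‖φ ζ‖ ∧ ‖φ ζ‖ ≤ 2) {l : ℂ}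
    (hz : φ 0 ∈ Shell V) (hw : φ l ∈ Shell V) {r : ℝ} (hr : ‖l‖ < r) (hr1 : r < 1)
    (hl0 : l ≠ 0) :
    ∃ ψ : ℂ → V, DifferentiableOn ℂ ψ (ball 0 1) ∧ MapsTo ψ (ball 0 1) (Shell V) ∧
      ψ 0 = φ 0 ∧ ψ (l / r) = φ l := by
  have hr0 : 0 < r := (norm_nonneg _).trans_lt hr
  have hrc : (r : ℂ) ≠ 0 := by exact_mod_cast hr0.ne'
  set a := φ 0 with ha
  set b := φ l with hbd
  have h2 : ∀ ζ ∈ ball (0 : ℂ) 1, ‖φ ζ‖ < 2 := by
    intro ζ hζ
    by_contra hcon
    push Not at hcon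
    have hmax : IsMaxOn (norm ∘ φ) (ball 0 1) ζ := by
      intro y hy
      exact (hb y hy).2.trans hcon
    have := Complex.norm_eqOn_of_isPreconnected_of_isMaxOn
      (convex_ball (0 : ℂ) 1).isPreconnected isOpen_ball hφ hζ hmax
    have h0 := this (mem_ball_self one_pos)
    simp only [Function.comp, Function.const] at h0
    have : ‖a‖ < 2 := hz.2
    rw [ha, h0] at this
    linarith
  obtain ⟨ζ0, hζ0, hM⟩ := (isCompact_closedBall (0 : ℂ) r).exists_isMaxOn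
    ⟨0, mem_closedBall_self hr0.le⟩
    ((hφ.mono (closedBall_subset_ball hr1)).continuousOn.norm)
  set M := ‖φ ζ0‖ with hMd
  have hM2 : M < 2 := h2 ζ0 (closedBall_subset_ball hr1 hζ0)
  have hM1 : 1 ≤ M := (hb ζ0 (closedBall_subset_ball hr1 hζ0)).1
  have hscale : ∀ ζ ∈ ball (0 : ℂ) 1, (r : ℂ) * ζ ∈ closedBall (0 : ℂ) r := by
    intro ζ hζ
    rw [mem_ball_zero_iff] at hζ
    rw [mem_closedBall_zero_iff, norm_mul, Complex.norm_real, Real.norm_of_nonneg hr0.le]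
    nlinarith
  have hφM : ∀ ζ ∈ ball (0 : ℂ) 1, ‖φ (r * ζ)‖ ≤ M := fun ζ hζ => hM (hscale ζ hζ)
  have hφ1 : ∀ ζ ∈ ball (0 : ℂ) 1, 1 ≤ ‖φ (r * ζ)‖ := fun ζ hζ =>
    (hb _ (closedBall_subset_ball hr1 (hscale ζ hζ))).1
  set m0 := min ‖a‖ ‖b‖ with hm0
  have hm1 : 1 < m0 := lt_min hz.1 hw.1
  have hma : m0 ≤ ‖a‖ := min_le_left _ _
  have hmb : m0 ≤ ‖b‖ := min_le_right _ _
  set η := (m0 - 1) / 2 with hη
  have hη0 : 0 < η := by rw [hη]; linarith
  set q := (1 + η) / m0 with hq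
  have hq0 : 0 ≤ q := by positivity
  have hq1 : q < 1 := by rw [hq, div_lt_one (by linarith)]; rw [hη]; linarith
  obtain ⟨N, hN⟩ := exists_pow_lt_of_lt_one (show (0 : ℝ) < 1 / 5 by norm_num) hq1
  -- the functions
  set F : V → ℂ → ℂ := fun v ζ => (innerSL ℂ v (φ (r * ζ))) / (‖v‖ ^ 2 : ℝ) with hF
  have hFn : ∀ v ζ, 1 < ‖v‖ → ‖F v ζ‖ ≤ ‖φ (r * ζ)‖ / ‖v‖ := by
    intro v ζ hv
    simp only [hF, innerSL_apply_apply]
    rw [norm_div, Complex.norm_real, Real.norm_of_nonneg (by positivity), div_le_div_iff₀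
      (by positivity) (by positivity)]
    have := norm_inner_le_norm (𝕜 := ℂ) v (φ (r * ζ))
    nlinarith [norm_nonneg v, norm_nonneg (φ (r * ζ))]
  have hcomp : DifferentiableOn ℂ (fun ζ : ℂ => φ (r * ζ)) (ball 0 1) := by
    apply hφ.comp (by fun_prop)
    intro ζ hζ
    exact closedBall_subset_ball hr1 (hscale ζ hζ)
  have hFd : ∀ v, DifferentiableOn ℂ (F v) (ball 0 1) := by
    intro v
    simp only [hF]
    apply DifferentiableOn.div_const
    exact (innerSL ℂ v).differentiable.comp_differentiableOn hcomp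
  have hFself : ∀ v ζ, 1 < ‖v‖ → φ (r * ζ) = v → F v ζ = 1 := by
    intro v ζ hv h
    simp only [hF, innerSL_apply_apply, h]
    rw [inner_self_eq_norm_sq_to_K]
    push_cast
    have : (‖v‖ : ℂ) ≠ 0 := by
      have : ‖v‖ ≠ 0 := by positivity
      exact_mod_cast this
    field_simp
    simp
  set P : ℂ → ℂ := fun ζ => (1 - F a ζ ^ N) * (1 - F b ζ ^ N) with hP
  have hPd : DifferentiableOn ℂ P (ball 0 1) :=
    ((hFd a).pow N |>.const_sub 1).mul ((hFd b).pow N |>.const_sub 1)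
  set C : ℝ := (1 + 2 ^ N) ^ 2 with hC
  have hC0 : 0 < C := by positivity
  have hPC : ∀ ζ ∈ ball (0 : ℂ) 1, ‖P ζ‖ ≤ C := by
    intro ζ hζ
    have key : ∀ v, 1 < ‖v‖ → ‖1 - F v ζ ^ N‖ ≤ 1 + 2 ^ N := by
      intro v hv
      refine (norm_sub_le _ _).trans ?_
      rw [norm_one, norm_pow]
      gcongr
      refine (hFn v ζ hv).trans ?_
      rw [div_le_iff₀ (by linarith)]
      have := hφM ζ hζ
      linarith
    simp only [hP]
    rw [norm_mul, hC, pow_two]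
    exact mul_le_mul (key a hz.1) (key b hw.1) (norm_nonneg _) (by positivity)
  set ε : ℝ := min (η / (2 * (1 + η))) ((2 - M) / 4) / C with hε
  have hε0 : 0 < ε := by
    apply div_pos _ hC0
    apply lt_min (by positivity)
    linarith
  have hεC : ε * C = min (η / (2 * (1 + η))) ((2 - M) / 4) := by rw [hε]; field_simp
  have hεC1 : ε * C ≤ η / (2 * (1 + η)) := hεC ▸ min_le_left _ _
  have hεC2 : ε * C ≤ (2 - M) / 4 := hεC ▸ min_le_right _ _
  refine ⟨fun ζ => (1 + ε * P ζ) • φ (r * ζ), ?_, ?_, ?_, ?_⟩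
  · exact ((hPd.const_mul _).const_add _).smul hcomp
  · intro ζ hζ
    have hn : ‖(1 + (ε : ℂ) * P ζ) • φ (r * ζ)‖ = ‖1 + (ε : ℂ) * P ζ‖ * ‖φ (r * ζ)‖ :=
      norm_smul _ _
    have hεP : ‖(ε : ℂ) * P ζ‖ ≤ ε * C := by
      rw [norm_mul, Complex.norm_real, Real.norm_of_nonneg hε0.le]
      gcongr
      exact hPC ζ hζ
    constructor
    · rw [hn]
      by_cases hcase : ‖φ (r * ζ)‖ ≤ 1 + η
      · have hqa : ‖F a ζ‖ ≤ q := by
          refine (hFn a ζ hz.1).trans ?_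
          rw [hq]; gcongr
        have hqb : ‖F b ζ‖ ≤ q := by
          refine (hFn b ζ hw.1).trans ?_
          rw [hq]; gcongr
        have hre := P_bound hqa hqb hN hq0
        have h3 : 1 < ‖1 + (ε : ℂ) * P ζ‖ := by
          refine lt_of_lt_of_le ?_ (Complex.re_le_norm _)
          simp only [Complex.add_re, Complex.one_re, Complex.mul_re, Complex.ofReal_re,
            Complex.ofReal_im, zero_mul, sub_zero]
          have : 0 < ε * (P ζ).re := mul_pos hε0 hre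
          linarith
        nlinarith [hφ1 ζ hζ]
      · push Not at hcase
        have h3 : 1 - ε * C ≤ ‖1 + (ε : ℂ) * P ζ‖ := by
          have := norm_sub_norm_le (1 : ℂ) (-((ε : ℂ) * P ζ))
          rw [norm_one, norm_neg, sub_neg_eq_add] at this
          linarith
        have h4 : (1 + η) * (1 - η / (2 * (1 + η))) = 1 + η / 2 := by
          field_simp; ring
        have h5 : 0 < 1 - ε * C := by
          have : η / (2 * (1 + η)) < 1 := by
            rw [div_lt_one (by positivity)]; linarith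
          linarith
        calc (1 : ℝ) < 1 + η / 2 := by linarith
          _ = (1 - η / (2 * (1 + η))) * (1 + η) := by rw [← h4]; ring
          _ ≤ (1 - ε * C) * ‖φ (r * ζ)‖ := by
              gcongr
          _ ≤ ‖1 + (ε : ℂ) * P ζ‖ * ‖φ (r * ζ)‖ := by gcongr
    · rw [hn]
      have h3 : ‖1 + (ε : ℂ) * P ζ‖ ≤ 1 + ε * C := by
        refine (norm_add_le _ _).trans ?_
        rw [norm_one]; gcongr
      calc ‖1 + (ε : ℂ) * P ζ‖ * ‖φ (r * ζ)‖ ≤ (1 + ε * C) * M := by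
            gcongr
            exact hφM ζ hζ
        _ ≤ (1 + (2 - M) / 4) * M := by gcongr
        _ < 2 := by nlinarith
  · have : F a 0 = 1 := hFself a 0 hz.1 (by simp [ha])
    simp only [hP, this, one_pow, sub_self, zero_mul, mul_zero, add_zero, one_smul]
    rw [ha]
  · have hrl : (r : ℂ) * (l / r) = l := by field_simp
    have : F b (l / r) = 1 := hFself b _ hw.1 (by rw [hrl])
    simp only [hP, this, one_pow, sub_self, mul_zero, add_zero, one_smul, hrl]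
    rw [hbd]

theorem shell_closed [FiniteDimensional ℂ V] {c : ℝ} {p : ℕ → V × V} {z w : V}
    (hz : z ∈ Shell V) (hw : w ∈ Shell V)
    (hp : Tendsto p atTop (𝓝 (z, w)))
    (h : ∀ k, ∃ r ∈ LSet (Shell V) (p k).1 (p k).2, r < c) {c' : ℝ} (hc' : c < c') :
    ∃ r ∈ LSet (Shell V) z w, r < c' := by
  have hc0 : 0 < c := by
    obtain ⟨r, hr, hrc⟩ := h 0
    exact (LSet_nonneg hr).trans_lt hrc
  choose r hr hrc using h
  choose f l hf hfD hl hf0 hfl hrl using hr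
  have hlR : ∀ k, ‖l k‖ ≤ Real.tanh c := by
    intro k
    have hm : ‖l k‖ ∈ Ioo (-1 : ℝ) 1 := ⟨by linarith [norm_nonneg (l k)], hl k⟩
    rw [← Real.tanh_artanh hm, ← hrl k]
    exact (tanh_lt (hrc k)).le
  obtain ⟨l', hl', t, ht, htl⟩ := (isCompact_closedBall (0 : ℂ) (Real.tanh c)).tendsto_subseq
    (x := l) (fun k => by rw [mem_closedBall_zero_iff]; exact hlR k)
  rw [mem_closedBall_zero_iff] at hl'
  have hl'1 : ‖l'‖ < 1 := hl'.trans_lt (Real.tanh_lt_one _)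
  obtain ⟨s, g, hs, hg, hlim⟩ := compactness (M := 2) (fun k => f (t k)) (fun k => hf (t k))
    (fun k z hz => (hfD (t k) hz).2.le)
  have hts : Tendsto (fun k => t (s k)) atTop atTop := ht.tendsto_atTop.comp hs.tendsto_atTop
  have hg0 : g 0 = z := by
    have h1 := hlim (fun _ => 0) 0 (by simp) tendsto_const_nhds
    simp only [hf0] at h1
    exact tendsto_nhds_unique h1 ((continuous_fst.tendsto _).comp (hp.comp hts))
  have hgl : g l' = w := by
    have h1 := hlim (fun k => l (t (s k))) l' hl'1 (htl.comp hs.tendsto_atTop)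
    simp only [hfl] at h1
    exact tendsto_nhds_unique h1 ((continuous_snd.tendsto _).comp (hp.comp hts))
  have hgb : ∀ ζ ∈ ball (0 : ℂ) 1, 1 ≤ ‖g ζ‖ ∧ ‖g ζ‖ ≤ 2 := by
    intro ζ hζ
    have h1 := (hlim (fun _ => ζ) ζ (by simpa using hζ) tendsto_const_nhds).norm
    exact ⟨ge_of_tendsto' h1 fun k => (hfD (t (s k)) hζ).1.le,
      le_of_tendsto' h1 fun k => (hfD (t (s k)) hζ).2.le⟩
  by_cases hl0 : l' = 0
  · have hzw : z = w := by rw [← hg0, ← hgl, hl0]
    subst hzw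
    exact ⟨0, const_mem hz, hc0.trans hc'⟩
  · obtain ⟨c'', h1, h2⟩ := exists_between hc'
    have hlp : 0 < ‖l'‖ := norm_pos_iff.mpr hl0
    have hlt : ‖l'‖ < Real.tanh c'' := hl'.trans_lt (tanh_lt h1)
    have ht0 : 0 < Real.tanh c'' := hlp.trans hlt
    have ht1 : Real.tanh c'' < 1 := Real.tanh_lt_one _
    have hr1 : ‖l'‖ / Real.tanh c'' < 1 := (div_lt_one ht0).mpr hlt
    have hr2 : ‖l'‖ < ‖l'‖ / Real.tanh c'' := by
      rw [lt_div_iff₀ ht0]; nlinarith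
    obtain ⟨ψ, hψ, hψD, hψ0, hψl⟩ := push hg hgb (hg0 ▸ hz) (hgl ▸ hw) hr2 hr1 hl0
    have hn : ‖l' / ((‖l'‖ / Real.tanh c'' : ℝ) : ℂ)‖ = Real.tanh c'' := by
      rw [norm_div, Complex.norm_real, Real.norm_of_nonneg (by positivity)]
      field_simp
    refine ⟨c'', ⟨ψ, _, hψ, hψD, ?_, hψ0.trans hg0, hψl.trans hgl, ?_⟩, h2⟩
    · rw [hn]; exact ht1
    · rw [hn, Real.artanh_tanh]

end Pool.Agent.Q171.Lem
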